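import Pool.Agent.C4K.StMul

/-!
ISE: the marked sets on the long paths of the old class.
-/

set_option autoImplicit false

namespace Pool.Agent.C4K

open Finset Cl
open scoped Classical

theorem ise (hI : ITRStmt) : ISEStmt := by
  intro V _ C L0 L1 hf hL1 hcyc hMK
  have hItr := hI V C.f
  have hdist : ∀ v a b u, a < b → b < L0 → it C.f a v = some u → it C.f b v = some u → False := by
    intro v a b u hab hb ha hb'
    obtain ⟨j, rfl⟩ : ∃ j, b = a + j := ⟨b - a, by omega⟩
    have h1 := hItr.rep hf v a j u ha hb'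
    have h2 := hcyc v j (by omega) h1
    omega
  have hblk : ∀ (v : V) (b : ℕ), ∃ u : V, (∀ j, j < L0 → it C.f j v ≠ none) → b < L0 / L1 →
      ∃ j, b * L1 ≤ j ∧ j < (b + 1) * L1 ∧ j < L0 ∧ it C.f j v = some u ∧ C.M u := by
    intro v b
    by_cases hv : ∀ j, j < L0 → it C.f j v ≠ none
    swap
    · exact ⟨v, fun h => absurd h hv⟩
    by_cases hb : b < L0 / L1
    swap
    · exact ⟨v, fun _ h => absurd h hb⟩
    have hbL : (b + 1) * L1 ≤ L0 :=
      (Nat.mul_le_mul_right _ hb).trans (Nat.div_mul_le_self _ _)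
    have hbL' : b * L1 + L1 ≤ L0 := by
      rw [← Nat.succ_mul]
      exact hbL
    obtain ⟨y, hy⟩ : ∃ y, it C.f (b * L1) v = some y :=
      Option.ne_none_iff_exists'.mp (hv _ (by omega))
    have hadd : ∀ j, it C.f (b * L1 + j) v = it C.f j y := by
      intro j
      rw [hItr.add, hy]
      rfl
    obtain ⟨j, x, hj, hx, hm⟩ := hMK y (fun j hj => by
      rw [← hadd]
      exact hv _ (by omega))
    refine ⟨x, fun _ _ => ⟨b * L1 + j, by omega, ?_, by omega, ?_, hm⟩⟩
    · rw [Nat.add_mul, one_mul]
      omega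
    · rw [hadd]
      exact hx
  choose g hg using hblk
  refine ⟨fun v => if ∀ j, j < L0 → it C.f j v ≠ none then (range (L0 / L1)).image (g v) else ∅,
    ?_, ?_, ?_, ?_⟩
  · intro v u hu
    beta_reduce at hu
    split_ifs at hu with hv
    · obtain ⟨b, hb, rfl⟩ := Finset.mem_image.mp hu
      obtain ⟨j, -, -, hj, hj1, hj2⟩ := hg v b hv (Finset.mem_range.mp hb)
      exact ⟨hj2, j, hj, hj1⟩
    · exact absurd hu (Finset.notMem_empty _)
  · intro v hv
    beta_reduce
    rw [if_pos hv, Finset.card_image_of_injOn, Finset.card_range]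
    intro b hb b' hb' hbb
    have hb1 := Finset.mem_range.mp (Finset.mem_coe.mp hb)
    have hb2 := Finset.mem_range.mp (Finset.mem_coe.mp hb')
    obtain ⟨j, h1, h2, h3, h4, -⟩ := hg v b hv hb1
    obtain ⟨j', h1', h2', h3', h4', -⟩ := hg v b' hv hb2
    have hbb' : g v b = g v b' := hbb
    rw [← hbb'] at h4'
    have hjj : j = j' := by
      rcases lt_trichotomy j j' with h | h | h
      · exact (hdist v j j' _ h h3' h4 h4').elim
      · exact h
      · exact (hdist v j' j _ h h3 h4' h4).elim
    subst hjj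
    have h5 : b < b' + 1 := lt_of_mul_lt_mul_right (lt_of_le_of_lt h1 h2') (Nat.zero_le L1)
    have h6 : b' < b + 1 := lt_of_mul_lt_mul_right (lt_of_le_of_lt h1' h2) (Nat.zero_le L1)
    omega
  · intro v
    beta_reduce
    split_ifs
    · exact Finset.card_image_le.trans (by
        rw [Finset.card_range]
        exact Nat.div_le_self _ _)
    · simp
  · intro u
    beta_reduce
    have h1 : ∀ v, ∃ j, v ∈ (univ.filter fun v => u ∈ (if ∀ j, j < L0 → it C.f j v ≠ none then
        (range (L0 / L1)).image (g v) else ∅)) → j < L0 ∧ it C.f j v = some u := by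
      intro v
      by_cases hv : v ∈ (univ.filter fun v => u ∈ (if ∀ j, j < L0 → it C.f j v ≠ none then
        (range (L0 / L1)).image (g v) else ∅))
      · have hu := (Finset.mem_filter.mp hv).2
        split_ifs at hu with hv'
        · obtain ⟨b, hb, rfl⟩ := Finset.mem_image.mp hu
          obtain ⟨j, -, -, hj, hj1, -⟩ := hg v b hv' (Finset.mem_range.mp hb)
          exact ⟨j, fun _ => ⟨hj, hj1⟩⟩
        · exact absurd hu (Finset.notMem_empty _)
      · exact ⟨0, fun h => absurd h hv⟩
    choose jj hjj using h1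
    have h2 : (univ.filter fun v => u ∈ (if ∀ j, j < L0 → it C.f j v ≠ none then
        (range (L0 / L1)).image (g v) else ∅)).card ≤ (range L0).card := by
      refine Finset.card_le_card_of_injOn jj (fun v hv => ?_) ?_
      · exact Finset.mem_coe.mpr (Finset.mem_range.mpr (hjj v (Finset.mem_coe.mp hv)).1)
      · intro v hv v' hv' hvv
        have h3 := (hjj v (Finset.mem_coe.mp hv)).2
        have h4 := (hjj v' (Finset.mem_coe.mp hv')).2
        have h5 : jj v = jj v' := hvv
        rw [h5] at h3
        exact hItr.inj hf _ v v' u h3 h4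
    rw [Finset.card_range] at h2
    exact h2

end Pool.Agent.C4K
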