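import Pool.Agent.C4K.StLin

/-!
LI1: one class Chernoff bound for the linear statistic.
-/

set_option autoImplicit false

namespace Pool.Agent.C4K

open Finset Cl
open scoped Classical

namespace H84

section

variable {V : Type} [Fintype V] {C : Cl V} {T : ℕ}

lemma mult_eq (om : C.Wk T → Bool) (u : V) :
    (mult om u : ℝ) = ∑ w, (if om w = true then (1 : ℝ) else 0) * (if w.has u then 1 else 0) := by
  unfold mult
  rw [Finset.card_filter]
  push_cast
  refine Finset.sum_congr rfl fun w _ => ?_
  by_cases h1 : om w = true <;> by_cases h2 : w.has u <;> simp [h1, h2]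

/-- contribution of a walk -/
noncomputable def gw (a : V → ℝ) (w : C.Wk T) : ℝ :=
  ∑ v, a v * ((if w.has v then (1 : ℝ) else 0) +
    ∑ x ∈ univ.filter (fun x => C.f x = some v), (if w.has x then (1 : ℝ) else 0))

lemma gst_eq (a : V → ℝ) (om : C.Wk T → Bool) :
    gst a om = ∑ w, (if om w = true then (1 : ℝ) else 0) * gw a w := by
  unfold gst gw
  simp only [mult_eq]
  have h : ∀ v, a v * (∑ w : C.Wk T, (if om w = true then (1 : ℝ) else 0) *
        (if w.has v then 1 else 0) + ∑ x ∈ univ.filter (fun x => C.f x = some v),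
          ∑ w : C.Wk T, (if om w = true then (1 : ℝ) else 0) * (if w.has x then 1 else 0)) =
      ∑ w : C.Wk T, (if om w = true then (1 : ℝ) else 0) * (a v *
        ((if w.has v then (1 : ℝ) else 0) +
          ∑ x ∈ univ.filter (fun x => C.f x = some v), (if w.has x then (1 : ℝ) else 0))) := by
    intro v
    rw [Finset.sum_comm, ← Finset.sum_add_distrib, Finset.mul_sum]
    refine Finset.sum_congr rfl fun w _ => ?_
    rw [← Finset.mul_sum]
    ring
  rw [Finset.sum_congr rfl fun v _ => h v, Finset.sum_comm]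
  refine Finset.sum_congr rfl fun w _ => ?_
  rw [← Finset.mul_sum]

lemma card_has (w : C.Wk T) : (univ.filter fun u => w.has u).card ≤ T + 1 := by
  have h : (univ.filter fun u => w.has u) ⊆ (range (T + 1)).image w.n := by
    intro u hu
    obtain ⟨i, hi, hu'⟩ := (Finset.mem_filter.mp hu).2
    exact Finset.mem_image.mpr ⟨i, Finset.mem_range.mpr (by omega), hu'⟩
  exact (Finset.card_le_card h).trans (Finset.card_image_le.trans (by rw [Finset.card_range]))

lemma gw_nonneg (a : V → ℝ) (ha : ∀ v, 0 ≤ a v) (w : C.Wk T) : 0 ≤ gw a w := by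
  unfold gw
  refine Finset.sum_nonneg fun v _ => mul_nonneg (ha v) (add_nonneg ?_ ?_)
  · split_ifs <;> norm_num
  · exact Finset.sum_nonneg fun x _ => by split_ifs <;> norm_num

lemma gw_le (a : V → ℝ) (wm : ℝ) (hw : 0 < wm) (ha : ∀ v, 0 ≤ a v ∧ a v ≤ wm) (w : C.Wk T) :
    gw a w ≤ 2 * ((T : ℝ) + 1) * wm := by
  have hcard : (((univ.filter fun u => w.has u).card : ℕ) : ℝ) ≤ (T : ℝ) + 1 := by
    exact_mod_cast card_has w
  have h1 : ∀ (g : V → ℝ), (∀ v, g v ≤ wm) →
      (∑ v, g v * (if w.has v then (1 : ℝ) else 0)) ≤ ((T : ℝ) + 1) * wm := by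
    intro g hg
    calc (∑ v, g v * (if w.has v then (1 : ℝ) else 0))
        ≤ ∑ v, (if w.has v then wm else 0) := by
          refine Finset.sum_le_sum fun v _ => ?_
          split_ifs
          · rw [mul_one]
            exact hg v
          · rw [mul_zero]
      _ = ((univ.filter fun u => w.has u).card : ℝ) * wm := by
          rw [← Finset.sum_filter, Finset.sum_const, nsmul_eq_mul]
      _ ≤ ((T : ℝ) + 1) * wm := mul_le_mul_of_nonneg_right hcard hw.le
  have h2 : gw a w = (∑ v, a v * (if w.has v then (1 : ℝ) else 0)) +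
      ∑ x, (∑ v ∈ univ.filter (fun v => C.f x = some v), a v) *
        (if w.has x then (1 : ℝ) else 0) := by
    unfold gw
    simp only [mul_add, Finset.sum_add_distrib]
    congr 1
    simp only [Finset.mul_sum, Finset.sum_mul, Finset.sum_filter]
    rw [Finset.sum_comm]
    refine Finset.sum_congr rfl fun x _ => Finset.sum_congr rfl fun v _ => ?_
    split_ifs <;> ring
  rw [h2]
  have h3 := h1 a fun v => (ha v).2
  have h4 := h1 (fun x => ∑ v ∈ univ.filter (fun v => C.f x = some v), a v) (by
    intro x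
    rcases hx : C.f x with _ | y
    · simp only [reduceCtorEq, Finset.filter_false, Finset.sum_empty]
      exact hw.le
    · have h5 : (univ.filter fun v : V => some y = some v) = {y} := by
        ext v
        simp only [Finset.mem_filter, Finset.mem_univ, true_and, Option.some.injEq,
          Finset.mem_singleton]
        exact eq_comm
      rw [h5, Finset.sum_singleton]
      exact (ha y).2)
  linarith

lemma mult_pos' (om : C.Wk T → Bool) (w : C.Wk T) (i : ℕ) (hw : om w = true) (hi : i ≤ T) :
    (1 : ℝ) ≤ mult om (w.n i) := by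
  unfold mult
  have h : 0 < (univ.filter fun w' : C.Wk T => om w' = true ∧ w'.has (w.n i)).card :=
    Finset.card_pos.mpr ⟨w, Finset.mem_filter.mpr ⟨Finset.mem_univ _, hw, i, hi, rfl⟩⟩
  exact_mod_cast h

lemma qq_prob {W : Type} (p : ℝ) (h0 : 0 ≤ p) (h1 : p ≤ 1) :
    LLLA.IsProb (α := fun _ : W => Bool) (qq p) := by
  refine ⟨fun w b => ?_, fun w => ?_⟩
  · unfold qq
    split_ifs <;> linarith
  · simp [qq]

end

end H84

open H84 in
theorem li1 (hPIM : PIMStmt) (hWPC : WPCStmt) : LI1Stmt := by
  intro V _ C d T p z r hP a wm b hwm ha hsum hb1 hb2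
  obtain ⟨-, hu, -⟩ := hWPC V C d T p z r hP
  have hPim := hPIM V C d T hP.ok
  have hp0 : 0 ≤ p := hP.p0.le
  have hp1 : p ≤ 1 := hP.ph.trans (by norm_num)
  have hq : LLLA.IsProb (α := fun _ : C.Wk T => Bool) (qq p) := qq_prob p hp0 hp1
  have hT0 : (0 : ℝ) < (T : ℝ) + 1 := by positivity
  have hr0 : 0 ≤ r := by
    rw [← hP.zr]
    exact mul_nonneg hT0.le hP.z0.le
  have hW : 0 < 2 * ((T : ℝ) + 1) * wm := by positivity
  have hb0 : 0 ≤ b := le_trans (by positivity) hb1
  have hg0 : ∀ w : C.Wk T, 0 ≤ gw a w := gw_nonneg a fun v => (ha v).1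
  have hg1 : ∀ w : C.Wk T, gw a w ≤ 2 * ((T : ℝ) + 1) * wm := gw_le a wm hwm ha
  -- the mean
  have hmean : (∑ w : C.Wk T, p * gw a w) ≤ 400 * r := by
    have h1 : (∑ w : C.Wk T, p * gw a w) = ∑ v, a v *
        (p * ((univ.filter fun w : C.Wk T => w.has v).card : ℝ) +
          ∑ x ∈ univ.filter (fun x => C.f x = some v),
            p * ((univ.filter fun w : C.Wk T => w.has x).card : ℝ)) := by
      have h2 : ∀ u, ((univ.filter fun w : C.Wk T => w.has u).card : ℝ) =
          ∑ w : C.Wk T, (if w.has u then (1 : ℝ) else 0) := by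
        intro u
        rw [Finset.card_filter]
        push_cast
        rfl
      simp only [h2]
      unfold gw
      have h3 : ∀ v, a v * (p * (∑ w : C.Wk T, (if w.has v then (1 : ℝ) else 0)) +
          ∑ x ∈ univ.filter (fun x => C.f x = some v),
            p * (∑ w : C.Wk T, (if w.has x then (1 : ℝ) else 0))) =
          ∑ w : C.Wk T, p * (a v * ((if w.has v then (1 : ℝ) else 0) +
            ∑ x ∈ univ.filter (fun x => C.f x = some v), (if w.has x then (1 : ℝ) else 0))) := by
        intro v
        rw [← Finset.mul_sum (a := p), Finset.sum_comm, ← mul_add, ← Finset.sum_add_distrib,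
          ← mul_assoc, Finset.mul_sum]
        refine Finset.sum_congr rfl fun w _ => ?_
        ring
      rw [Finset.sum_congr rfl fun v _ => h3 v, Finset.sum_comm]
      refine Finset.sum_congr rfl fun w _ => ?_
      rw [← Finset.mul_sum]
    rw [h1]
    have h4 : ∀ v, (∑ x ∈ univ.filter (fun x => C.f x = some v),
        p * ((univ.filter fun w : C.Wk T => w.has x).card : ℝ)) ≤ 2 * r := by
      intro v
      have h5 : (univ.filter fun x => C.f x = some v).card ≤ 1 := by
        rw [Finset.card_le_one]
        intro x hx y hy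
        exact hP.ok.inj x y v (Finset.mem_filter.mp hx).2 (Finset.mem_filter.mp hy).2
      calc (∑ x ∈ univ.filter (fun x => C.f x = some v),
          p * ((univ.filter fun w : C.Wk T => w.has x).card : ℝ))
          ≤ ∑ _x ∈ univ.filter (fun x => C.f x = some v), 2 * r :=
            Finset.sum_le_sum fun x _ => hu x
        _ = ((univ.filter fun x => C.f x = some v).card : ℝ) * (2 * r) := by
            rw [Finset.sum_const, nsmul_eq_mul]
        _ ≤ 1 * (2 * r) := mul_le_mul_of_nonneg_right (by exact_mod_cast h5) (by linarith)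
        _ = 2 * r := one_mul _
    calc (∑ v, a v * (p * ((univ.filter fun w : C.Wk T => w.has v).card : ℝ) +
          ∑ x ∈ univ.filter (fun x => C.f x = some v),
            p * ((univ.filter fun w : C.Wk T => w.has x).card : ℝ)))
        ≤ ∑ v, a v * (4 * r) := by
          refine Finset.sum_le_sum fun v _ => mul_le_mul_of_nonneg_left ?_ (ha v).1
          have h6 := hu v
          have h7 := h4 v
          linarith
      _ = (∑ v, a v) * (4 * r) := by rw [Finset.sum_mul]
      _ ≤ 100 * (4 * r) := mul_le_mul_of_nonneg_right hsum (by linarith)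
      _ = 400 * r := by ring
  -- Chernoff
  let F : C.Wk T → (C.Wk T → Bool) → ℝ := fun w om =>
    gw a w / (2 * ((T : ℝ) + 1) * wm) * (if om w = true then (1 : ℝ) else 0)
  have hInd : LLLA.IndSum (α := fun _ : C.Wk T => Bool) (qq p) univ (fun w => {w}) F := by
    refine ⟨hq, ?_, ?_, ?_, ?_⟩
    · intro i _ j _ hij
      rw [Finset.disjoint_singleton]
      exact hij
    · intro i _ ω η h
      simp only [F]
      rw [h i (Finset.mem_singleton_self i)]
    · intro i _ ω
      have := hg0 i
      simp only [F]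
      split_ifs <;> positivity
    · intro i _ ω
      simp only [F]
      have h1 : gw a i / (2 * ((T : ℝ) + 1) * wm) ≤ 1 := by
        rw [div_le_one hW]
        exact hg1 i
      split_ifs
      · rw [mul_one]
        exact h1
      · rw [mul_zero]
        norm_num
  have hsumF : ∀ om : C.Wk T → Bool, (∑ w, F w om) = gst a om / (2 * ((T : ℝ) + 1) * wm) := by
    intro om
    rw [gst_eq, Finset.sum_div]
    refine Finset.sum_congr rfl fun w _ => ?_
    simp only [F]
    ring
  have hExF : (∑ w, LLLA.Ex (α := fun _ : C.Wk T => Bool) (qq p) (F w)) =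
      (∑ w : C.Wk T, p * gw a w) / (2 * ((T : ℝ) + 1) * wm) := by
    rw [Finset.sum_div]
    refine Finset.sum_congr rfl fun w _ => ?_
    have h1 : LLLA.Ex (α := fun _ : C.Wk T => Bool) (qq p) (F w) =
        gw a w / (2 * ((T : ℝ) + 1) * wm) * p := by
      have h2 := LLLA.Ex_const_mul (α := fun _ : C.Wk T => Bool) (qq p)
        (gw a w / (2 * ((T : ℝ) + 1) * wm)) (fun om => if om w = true then (1 : ℝ) else 0)
      rw [LLLA.Ex_coord (α := fun _ : C.Wk T => Bool) hq w true] at h2
      exact h2
    rw [h1]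
    ring
  have hmain : C.Pr T p {om | b / 2 ≤ gst a om} ≤
      Real.exp (-(b / (4 * ((T : ℝ) + 1) * wm))) := by
    have h1 := hInd.chern_far (a := b / (4 * ((T : ℝ) + 1) * wm)) (by
      rw [hExF, ← mul_div_assoc, div_le_div_iff₀ hW (by positivity)]
      have h2 : 7 * (∑ w : C.Wk T, p * gw a w) ≤ b / 2 := by linarith
      calc 7 * (∑ w : C.Wk T, p * gw a w) * (4 * ((T : ℝ) + 1) * wm)
          ≤ b / 2 * (4 * ((T : ℝ) + 1) * wm) := mul_le_mul_of_nonneg_right h2 (by positivity)
        _ = b * (2 * ((T : ℝ) + 1) * wm) := by ring)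
    refine le_trans (LLLA.Pr_mono hq ?_) h1
    intro om hom
    show b / (4 * ((T : ℝ) + 1) * wm) ≤ ∑ w, F w om
    rw [hsumF, div_le_div_iff₀ (by positivity) hW]
    have h3 : b / 2 ≤ gst a om := hom
    calc b * (2 * ((T : ℝ) + 1) * wm) = b / 2 * (4 * ((T : ℝ) + 1) * wm) := by ring
      _ ≤ gst a om * (4 * ((T : ℝ) + 1) * wm) := mul_le_mul_of_nonneg_right h3 (by positivity)
  refine ⟨?_, ?_, ?_, ?_⟩
  · refine le_trans (LLLA.Pr_mono hq ?_) hmain
    intro om hom
    have h3 : b ≤ gst a om := hom
    show b / 2 ≤ gst a om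
    linarith
  · intro w
    refine le_trans (LLLA.Pr_mono hq ?_) hmain
    intro om hom
    have h3 : b ≤ gst a (ins om w) := hom
    show b / 2 ≤ gst a om
    have h4 : gst a (ins om w) ≤ gst a om + gw a w := by
      rw [gst_eq, gst_eq]
      have h5 : ∀ w' : C.Wk T, (if ins om w w' = true then (1 : ℝ) else 0) * gw a w' ≤
          (if om w' = true then (1 : ℝ) else 0) * gw a w' + (if w' = w then gw a w' else 0) := by
        intro w'
        unfold ins
        by_cases h6 : w' = w
        · subst h6
          rw [Function.update_self, if_pos rfl, if_pos rfl, one_mul]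
          have h7 := hg0 w'
          split_ifs <;> linarith
        · rw [Function.update_of_ne h6, if_neg h6, add_zero]
      refine (Finset.sum_le_sum fun w' _ => h5 w').trans ?_
      rw [Finset.sum_add_distrib, Finset.sum_ite_eq' univ w (fun w' => gw a w'),
        if_pos (Finset.mem_univ w)]
    have h8 := hg1 w
    linarith
  · intro om om' h
    unfold gst
    refine Finset.sum_congr rfl fun v _ => ?_
    by_cases hv : a v = 0
    · rw [hv, zero_mul, zero_mul]
    · have h1 : ∀ u ∈ spt C a, mult om' u = mult om u := by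
        intro u hu
        unfold mult
        congr 1
        ext w
        simp only [Finset.mem_filter, Finset.mem_univ, true_and]
        constructor
        · rintro ⟨h2, i, hi, h3⟩
          refine ⟨?_, i, hi, h3⟩
          rw [← h w ⟨i, hi, by rw [h3]; exact hu⟩]
          exact h2
        · rintro ⟨h2, i, hi, h3⟩
          refine ⟨?_, i, hi, h3⟩
          rw [h w ⟨i, hi, by rw [h3]; exact hu⟩]
          exact h2
      have h2 : v ∈ spt C a := Finset.mem_filter.mpr ⟨Finset.mem_univ _, Or.inl hv⟩
      rw [h1 v h2]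
      congr 2
      refine Finset.sum_congr rfl fun x hx => ?_
      rw [h1 x (Finset.mem_filter.mpr ⟨Finset.mem_univ _, Or.inr ⟨v, (Finset.mem_filter.mp hx).2, hv⟩⟩)]
  · intro om t0
    unfold gst
    refine Finset.sum_le_sum fun v _ => mul_le_mul_of_nonneg_left ?_ (ha v).1
    have hm0 : ∀ u : V, (0 : ℝ) ≤ mult om u := fun u => Nat.cast_nonneg _
    have hs0 : (0 : ℝ) ≤ ∑ x ∈ univ.filter (fun x => C.f x = some v), (mult om x : ℝ) :=
      Finset.sum_nonneg fun x _ => hm0 x
    have hA : (1 : ℝ) ≤ mult om v → (1 : ℝ) ≤ (mult om v : ℝ) +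
        ∑ x ∈ univ.filter (fun x => C.f x = some v), (mult om x : ℝ) := fun h => by linarith
    have hB : ∀ x, C.f x = some v → (1 : ℝ) ≤ mult om x → (1 : ℝ) ≤ (mult om v : ℝ) +
        ∑ x ∈ univ.filter (fun x => C.f x = some v), (mult om x : ℝ) := by
      intro x hx h
      have h1 : (mult om x : ℝ) ≤ ∑ x ∈ univ.filter (fun x => C.f x = some v), (mult om x : ℝ) :=
        Finset.single_le_sum (f := fun x => (mult om x : ℝ)) (fun x _ => hm0 x)
          (Finset.mem_filter.mpr ⟨Finset.mem_univ x, hx⟩)
      have h2 := hm0 v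
      linarith
    split_ifs with hcase
    · rcases hcase with hD | hJ | hJ
      · rcases hPim.def' om v hD with ⟨w, hw, h1 | h1⟩ | h1 | ⟨x, hx, h1⟩ |
          ⟨w, hw, i, hi, h1, -⟩ | ⟨w, hw, i, hi, h1, -⟩
        · apply hA
          rw [← h1]
          exact mult_pos' om w T hw le_rfl
        · exact hB _ h1 (mult_pos' om w 0 hw (Nat.zero_le _))
        · apply hA
          exact_mod_cast (show 1 ≤ mult om v by omega)
        · apply hB x hx
          exact_mod_cast (show 1 ≤ mult om x by omega)
        · apply hA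
          rw [← h1]
          exact mult_pos' om w i hw hi.le
        · exact hB _ h1 (mult_pos' om w (i + 1) hw hi)
      · obtain ⟨w, i, l, t, -, ⟨hw, -, hl, -⟩, h1⟩ := hJ
        apply hA
        rw [← h1]
        exact mult_pos' om w l hw hl.le
      · obtain ⟨w, i, l, t, -, ⟨hw, -, hl, -⟩, h1⟩ := hJ
        exact hB _ h1 (mult_pos' om w (l + 1) hw hl)
    · exact add_nonneg (hm0 v) hs0

end Pool.Agent.C4K
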