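import Pool.Agent.C4K.StPr

/-!
MK0: sets of walks through one node.
-/

set_option autoImplicit false

namespace Pool.Agent.C4K

open Finset Cl
open scoped Classical

/-- subsets of cardinality `K` of a set `A` of walks with `p * card A ≤ q` -/
lemma mk0_pow {W : Type} (A : Finset W) (p q : ℝ) (K : ℕ) (hp : 0 ≤ p)
    (hA : p * (A.card : ℝ) ≤ q) : p ^ K * (((powersetCard K A).card : ℕ) : ℝ) ≤ q ^ K := by
  rw [Finset.card_powersetCard]
  have h1 : ((A.card.choose K : ℕ) : ℝ) ≤ ((A.card ^ K : ℕ) : ℝ) := by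
    exact_mod_cast Nat.choose_le_pow A.card K
  calc p ^ K * ((A.card.choose K : ℕ) : ℝ) ≤ p ^ K * ((A.card ^ K : ℕ) : ℝ) :=
        mul_le_mul_of_nonneg_left h1 (pow_nonneg hp K)
    _ = (p * (A.card : ℝ)) ^ K := by
        push_cast
        rw [mul_pow]
    _ ≤ q ^ K := pow_le_pow_left₀ (mul_nonneg hp (Nat.cast_nonneg _)) hA K

theorem mk0 (hW : WPCStmt) : MK0Stmt := by
  intro V _ C d T p z r K0 hP hK0
  obtain ⟨-, hu, -⟩ := hW V C d T p z r hP
  have hp : 0 ≤ p := hP.p0.le
  have hr : 0 ≤ 2 * r := by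
    have h1 := hP.zr
    have h2 := hP.z0
    have h3 : (0 : ℝ) ≤ ((T : ℝ) + 1) * z := by positivity
    linarith
  refine ⟨fun u => ?_, fun u0 => ?_⟩
  · have h1 : (univ : Finset (Finset (C.Wk T))).filter
        (fun S => S.card = K0 ∧ ∀ w ∈ S, w.has u) =
          powersetCard K0 (univ.filter fun w : C.Wk T => w.has u) := by
      ext S
      simp only [Finset.mem_filter, Finset.mem_univ, true_and, Finset.mem_powersetCard]
      constructor
      · rintro ⟨h2, h3⟩
        exact ⟨fun w hw => Finset.mem_filter.mpr ⟨Finset.mem_univ _, h3 w hw⟩, h2⟩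
      · rintro ⟨h2, h3⟩
        exact ⟨h3, fun w hw => (Finset.mem_filter.mp (h2 hw)).2⟩
    rw [h1, Finset.sum_const, nsmul_eq_mul, mul_comm]
    exact mk0_pow _ p _ K0 hp (hu u)
  · set A : V → Finset (C.Wk T) := fun u => univ.filter fun w : C.Wk T => w.has u with hA
    set B : C.Wk T → ℕ → Finset (Finset (C.Wk T)) := fun w i =>
      (powersetCard (K0 - 1) (A (w.n i))).image (insert w) with hB
    have h1 : (univ : Finset (Finset (C.Wk T))).filter
        (fun S => S.card = K0 ∧ (∃ u, ∀ w ∈ S, w.has u) ∧ ∃ w ∈ S, w.has u0) ⊆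
          (A u0).biUnion fun w => (range (T + 1)).biUnion fun i => B w i := by
      intro S hS
      obtain ⟨-, h2, ⟨u, h3⟩, w, hw, h4⟩ := Finset.mem_filter.mp hS
      obtain ⟨i, hi, hiu⟩ := h3 w hw
      refine Finset.mem_biUnion.mpr ⟨w, Finset.mem_filter.mpr ⟨Finset.mem_univ _, h4⟩, ?_⟩
      refine Finset.mem_biUnion.mpr ⟨i, Finset.mem_range.mpr (by omega), ?_⟩
      refine Finset.mem_image.mpr ⟨S.erase w, ?_, Finset.insert_erase hw⟩
      rw [Finset.mem_powersetCard]
      refine ⟨fun w' hw' => ?_, by rw [Finset.card_erase_of_mem hw, h2]⟩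
      refine Finset.mem_filter.mpr ⟨Finset.mem_univ _, ?_⟩
      rw [hiu]
      exact h3 w' (Finset.mem_of_mem_erase hw')
    have h2 : ∀ w i, p ^ (K0 - 1) * ((B w i).card : ℝ) ≤ (2 * r) ^ (K0 - 1) := by
      intro w i
      refine le_trans ?_ (mk0_pow (A (w.n i)) p (2 * r) (K0 - 1) hp (hu _))
      refine mul_le_mul_of_nonneg_left ?_ (pow_nonneg hp _)
      exact_mod_cast Finset.card_image_le
    have h3 : (((univ : Finset (Finset (C.Wk T))).filter
        (fun S => S.card = K0 ∧ (∃ u, ∀ w ∈ S, w.has u) ∧ ∃ w ∈ S, w.has u0)).card : ℝ) ≤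
          ∑ w ∈ A u0, ∑ i ∈ range (T + 1), ((B w i).card : ℝ) := by
      have h4 := (Finset.card_le_card h1).trans (Finset.card_biUnion_le.trans
        (Finset.sum_le_sum fun w _ => Finset.card_biUnion_le (s := range (T + 1))
          (t := fun i => B w i)))
      exact_mod_cast h4
    have hK : p ^ K0 = p * p ^ (K0 - 1) := by
      rw [← pow_succ', Nat.sub_add_cancel hK0]
    have hK' : (2 * r) ^ K0 = (2 * r) * (2 * r) ^ (K0 - 1) := by
      rw [← pow_succ', Nat.sub_add_cancel hK0]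
    rw [Finset.sum_const, nsmul_eq_mul]
    calc (((univ : Finset (Finset (C.Wk T))).filter
        (fun S => S.card = K0 ∧ (∃ u, ∀ w ∈ S, w.has u) ∧ ∃ w ∈ S, w.has u0)).card : ℝ) * p ^ K0
        ≤ (∑ w ∈ A u0, ∑ i ∈ range (T + 1), ((B w i).card : ℝ)) * p ^ K0 :=
          mul_le_mul_of_nonneg_right h3 (pow_nonneg hp _)
      _ = p * ∑ w ∈ A u0, ∑ i ∈ range (T + 1), p ^ (K0 - 1) * ((B w i).card : ℝ) := by
          rw [hK]
          simp only [← Finset.mul_sum]
          ring
      _ ≤ p * ∑ w ∈ A u0, ∑ i ∈ range (T + 1), (2 * r) ^ (K0 - 1) := by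
          refine mul_le_mul_of_nonneg_left ?_ hp
          exact Finset.sum_le_sum fun w _ => Finset.sum_le_sum fun i _ => h2 w i
      _ = ((T : ℝ) + 1) * ((p * ((A u0).card : ℝ)) * (2 * r) ^ (K0 - 1)) := by
          rw [Finset.sum_const, Finset.sum_const, Finset.card_range]
          simp only [nsmul_eq_mul]
          push_cast
          ring
      _ ≤ ((T : ℝ) + 1) * ((2 * r) * (2 * r) ^ (K0 - 1)) := by
          refine mul_le_mul_of_nonneg_left ?_ (by positivity)
          exact mul_le_mul_of_nonneg_right (hu u0) (pow_nonneg hr _)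
      _ = ((T : ℝ) + 1) * (2 * r) ^ K0 := by rw [hK']

end Pool.Agent.C4K
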