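import Pool.Agent.C4K.StNumB

/-!
NUB2: numbers with the parameter B.
-/

set_option autoImplicit false

namespace Pool.Agent.C4K

open Finset Cl Filter
open scoped Classical

lemma nub2_pw (k x c : ℝ) (B m : ℕ) (hk : 1 ≤ k) (hx0 : 0 ≤ x) (hx : x ≤ k ^ (-c))
    (hcm : 60 * ((B : ℝ) + 1) ≤ c * m) : x ^ m ≤ kεB k B := by
  have h1 : x ^ m ≤ (k ^ (-c)) ^ m := pow_le_pow_left₀ hx0 hx m
  have h2 : (k ^ (-c)) ^ m = k ^ (-c * m) := by
    rw [← Real.rpow_natCast, ← Real.rpow_mul (by linarith)]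
  rw [h2] at h1
  refine h1.trans (Real.rpow_le_rpow_of_exponent_le hk ?_)
  linarith

lemma nub2_inv (k : ℝ) (hk : 1 ≤ k) (n1 n2 : ℕ) (h : n1 + 1 ≤ n2) :
    k ^ n1 * (k ^ n2)⁻¹ ≤ k⁻¹ := by
  have hk0 : 0 < k := lt_of_lt_of_le one_pos hk
  have h1 : (k ^ n2)⁻¹ ≤ (k ^ (n1 + 1))⁻¹ :=
    inv_anti₀ (pow_pos hk0 _) (pow_le_pow_right₀ hk h)
  calc k ^ n1 * (k ^ n2)⁻¹ ≤ k ^ n1 * (k ^ (n1 + 1))⁻¹ :=
        mul_le_mul_of_nonneg_left h1 (pow_nonneg hk0.le _)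
    _ = k⁻¹ := by
        rw [pow_succ]
        field_simp

lemma nub2_ev (B : ℕ) : ∀ᶠ k : ℝ in atTop, 2 ^ 101 ≤ k ∧
    10 ^ 11 * (100 * ((B : ℝ) + 1)) ^ 2 ≤ k ∧ Real.exp 1 ≤ k ^ (0.0003 : ℝ) ∧
    8 ≤ k ^ (0.536 : ℝ) ∧ 96 ≤ k ^ (0.001 : ℝ) ∧ 2 ≤ k ^ (0.005 : ℝ) ∧
    60 * ((B : ℝ) + 1) * Real.log k ≤ k ^ (0.005 : ℝ) := by
  have h1 : ∀ᶠ k : ℝ in atTop, (2 : ℝ) ^ 101 ≤ k := eventually_ge_atTop _
  have h1' : ∀ᶠ k : ℝ in atTop, (10 : ℝ) ^ 11 * (100 * ((B : ℝ) + 1)) ^ 2 ≤ k :=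
    eventually_ge_atTop _
  have h2 : ∀ᶠ k : ℝ in atTop, Real.exp 1 ≤ k ^ (0.0003 : ℝ) :=
    (tendsto_rpow_atTop (by norm_num)).eventually (eventually_ge_atTop _)
  have h3 : ∀ᶠ k : ℝ in atTop, (8 : ℝ) ≤ k ^ (0.536 : ℝ) :=
    (tendsto_rpow_atTop (by norm_num)).eventually (eventually_ge_atTop _)
  have h5 : ∀ᶠ k : ℝ in atTop, (96 : ℝ) ≤ k ^ (0.001 : ℝ) :=
    (tendsto_rpow_atTop (by norm_num)).eventually (eventually_ge_atTop _)
  have h6 : ∀ᶠ k : ℝ in atTop, (2 : ℝ) ≤ k ^ (0.005 : ℝ) :=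
    (tendsto_rpow_atTop (by norm_num)).eventually (eventually_ge_atTop _)
  have hB : (0 : ℝ) < 60 * ((B : ℝ) + 1) := by positivity
  have h4 := (isLittleO_log_rpow_atTop (show (0 : ℝ) < 0.005 by norm_num)).bound
    (show (0 : ℝ) < (60 * ((B : ℝ) + 1))⁻¹ by positivity)
  filter_upwards [h1, h1', h2, h3, h5, h6, h4] with k h1 h1' h2 h3 h5 h6 h4
  refine ⟨h1, h1', h2, h3, h5, h6, ?_⟩
  have hk : 0 ≤ k := le_trans (by positivity) h1
  rw [Real.norm_of_nonneg (Real.rpow_nonneg hk _)] at h4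
  have h7 : Real.log k ≤ (60 * ((B : ℝ) + 1))⁻¹ * k ^ (0.005 : ℝ) := (le_abs_self _).trans h4
  calc 60 * ((B : ℝ) + 1) * Real.log k
      ≤ 60 * ((B : ℝ) + 1) * ((60 * ((B : ℝ) + 1))⁻¹ * k ^ (0.005 : ℝ)) :=
        mul_le_mul_of_nonneg_left h7 hB.le
    _ = k ^ (0.005 : ℝ) := by
        rw [← mul_assoc, mul_inv_cancel₀ hB.ne', one_mul]

lemma nub2_sum (k K b1 m0 nb n t e7 E F rr l2 l3 : ℝ) (B : ℕ) (hk : 1 ≤ k)
    (hkK : 10 ^ 11 * K ^ 2 ≤ k) (hK1 : 100 ≤ K) (hb10 : 0 ≤ b1) (hm00 : 0 ≤ m0) (hn0 : 0 ≤ n)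
    (hnb0 : 0 ≤ nb) (ht0 : 0 ≤ t) (he70 : 0 ≤ e7) (hrr0 : 0 ≤ rr) (hl20 : 0 ≤ l2)
    (hl30 : 0 ≤ l3) (hb1 : b1 ≤ 60 * k ^ B) (hm0 : m0 ≤ 8 * k ^ (B + 1)) (hn : n ≤ k)
    (hnb : nb ≤ 195 * K * k ^ 4) (ht : t ≤ 2 * k) (he7 : e7 ≤ E) (hrr : rr ≤ F)
    (hl2 : l2 ≤ 1800 * k ^ 4) (hl3 : l3 ≤ 10800 * k ^ 6)
    (hE : E = (k ^ (60 * (B + 1)))⁻¹) (hF : F = (k ^ (52 * (B + 1)))⁻¹) :
    (b1 * n * nb + m0) * K * t * (b1 * E * l2 + m0 * e7) +
      (b1 * n * nb + m0) * (b1 * E * l3 + t * rr + t * m0 * e7) ≤ 1 / 4 := by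
  have hk0 : 0 < k := lt_of_lt_of_le one_pos hk
  have hkn : ∀ m : ℕ, 0 < k ^ m := fun m => pow_pos hk0 m
  have hE0 : 0 ≤ E := by rw [hE]; exact inv_nonneg.mpr (hkn _).le
  have hF0 : 0 ≤ F := by rw [hF]; exact inv_nonneg.mpr (hkn _).le
  have hQ : b1 * n * nb + m0 ≤ 11708 * K * k ^ (B + 5) := by
    have h1 : b1 * n * nb ≤ (60 * k ^ B) * k * (195 * K * k ^ 4) :=
      mul_le_mul (mul_le_mul hb1 hn hn0 (by positivity)) hnb hnb0 (by positivity)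
    have h2 : (60 * k ^ B) * k * (195 * K * k ^ 4) = 11700 * K * k ^ (B + 5) := by ring
    have h3 : k ^ (B + 1) ≤ k ^ (B + 5) := pow_le_pow_right₀ hk (by omega)
    have h4 : 1 * k ^ (B + 5) ≤ K * k ^ (B + 5) :=
      mul_le_mul_of_nonneg_right (by linarith) (hkn _).le
    linarith
  have hQ0 : 0 ≤ b1 * n * nb + m0 := by positivity
  have h1 : b1 * E * l2 + m0 * e7 ≤ 108008 * k ^ (B + 4) * E := by
    have h2 : b1 * E * l2 ≤ (60 * k ^ B) * E * (1800 * k ^ 4) :=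
      mul_le_mul (mul_le_mul_of_nonneg_right hb1 hE0) hl2 hl20 (by positivity)
    have h3 : (60 * k ^ B) * E * (1800 * k ^ 4) = 108000 * k ^ (B + 4) * E := by ring
    have h4 : m0 * e7 ≤ (8 * k ^ (B + 1)) * E := mul_le_mul hm0 he7 he70 (by positivity)
    have h5 : k ^ (B + 1) * E ≤ k ^ (B + 4) * E :=
      mul_le_mul_of_nonneg_right (pow_le_pow_right₀ hk (by omega)) hE0
    linarith
  have h10 : 0 ≤ b1 * E * l2 + m0 * e7 := by positivity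
  have h2 : b1 * E * l3 + t * rr + t * m0 * e7 ≤ 648016 * k ^ (B + 6) * E + 2 * k * F := by
    have h2 : b1 * E * l3 ≤ (60 * k ^ B) * E * (10800 * k ^ 6) :=
      mul_le_mul (mul_le_mul_of_nonneg_right hb1 hE0) hl3 hl30 (by positivity)
    have h3 : (60 * k ^ B) * E * (10800 * k ^ 6) = 648000 * k ^ (B + 6) * E := by ring
    have h4 : t * rr ≤ (2 * k) * F := mul_le_mul ht hrr hrr0 (by positivity)
    have h5 : t * m0 * e7 ≤ (2 * k) * (8 * k ^ (B + 1)) * E :=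
      mul_le_mul (mul_le_mul ht hm0 hm00 (by positivity)) he7 he70 (by positivity)
    have h6 : (2 * k) * (8 * k ^ (B + 1)) * E = 16 * (k ^ (B + 2) * E) := by ring
    have h7 : k ^ (B + 2) * E ≤ k ^ (B + 6) * E :=
      mul_le_mul_of_nonneg_right (pow_le_pow_right₀ hk (by omega)) hE0
    linarith
  have h20 : 0 ≤ b1 * E * l3 + t * rr + t * m0 * e7 := by positivity
  have hi1 : k ^ (2 * B + 10) * E ≤ k⁻¹ := by
    rw [hE]
    exact nub2_inv k hk _ _ (by omega)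
  have hi2 : k ^ (2 * B + 11) * E ≤ k⁻¹ := by
    rw [hE]
    exact nub2_inv k hk _ _ (by omega)
  have hi3 : k ^ (B + 6) * F ≤ k⁻¹ := by
    rw [hF]
    exact nub2_inv k hk _ _ (by omega)
  have hA : (b1 * n * nb + m0) * K * t * (b1 * E * l2 + m0 * e7) ≤
      2529115328 * K ^ 2 * k⁻¹ := by
    calc (b1 * n * nb + m0) * K * t * (b1 * E * l2 + m0 * e7)
        ≤ (11708 * K * k ^ (B + 5)) * K * (2 * k) * (108008 * k ^ (B + 4) * E) :=
          mul_le_mul (mul_le_mul (mul_le_mul_of_nonneg_right hQ (by linarith)) ht ht0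
            (by positivity)) h1 h10 (by positivity)
      _ = 2529115328 * K ^ 2 * (k ^ (2 * B + 10) * E) := by ring
      _ ≤ 2529115328 * K ^ 2 * k⁻¹ := mul_le_mul_of_nonneg_left hi1 (by positivity)
  have hB : (b1 * n * nb + m0) * (b1 * E * l3 + t * rr + t * m0 * e7) ≤
      7586994744 * K * k⁻¹ := by
    calc (b1 * n * nb + m0) * (b1 * E * l3 + t * rr + t * m0 * e7)
        ≤ (11708 * K * k ^ (B + 5)) * (648016 * k ^ (B + 6) * E + 2 * k * F) :=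
          mul_le_mul hQ h2 h20 (by positivity)
      _ = 7586971328 * K * (k ^ (2 * B + 11) * E) + 23416 * K * (k ^ (B + 6) * F) := by ring
      _ ≤ 7586971328 * K * k⁻¹ + 23416 * K * k⁻¹ :=
          add_le_add (mul_le_mul_of_nonneg_left hi2 (by linarith))
            (mul_le_mul_of_nonneg_left hi3 (by linarith))
      _ = 7586994744 * K * k⁻¹ := by ring
  have hC : K ^ 2 * k⁻¹ ≤ 1 / 10 ^ 11 := by
    rw [← div_eq_mul_inv, div_le_iff₀ hk0]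
    linarith
  have hD : K * k⁻¹ ≤ K ^ 2 * k⁻¹ :=
    mul_le_mul_of_nonneg_right (by nlinarith) (inv_nonneg.mpr hk0.le)
  linarith

theorem nub2 : NUB2Stmt := by
  intro B
  obtain ⟨k0, hk0⟩ := eventually_atTop.mp (nub2_ev B)
  refine ⟨k0, fun k n s eps hk hN => ?_⟩
  obtain ⟨hk1, hkK, hk2, hk3, hk5, hk6, hk4⟩ := hk0 k hk
  have hB0 : (0 : ℝ) ≤ B := Nat.cast_nonneg B
  have hkone : (1 : ℝ) ≤ k := le_trans (by norm_num) hk1
  have hkpos : (0 : ℝ) < k := lt_of_lt_of_le one_pos hkone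
  have hadd : ∀ x y : ℝ, k ^ x * k ^ y = k ^ (x + y) := fun x y =>
    (Real.rpow_add hkpos x y).symm
  have hmono : ∀ x y : ℝ, x ≤ y → k ^ x ≤ k ^ y := fun x y h =>
    Real.rpow_le_rpow_of_exponent_le hkone h
  have hpos : ∀ x : ℝ, 0 < k ^ x := fun x => Real.rpow_pos_of_pos hkpos x
  have hone : k ^ (1 : ℝ) = k := Real.rpow_one k
  have he := Real.exp_one_lt_d9
  have he0 : 0 < Real.exp 1 := Real.exp_pos 1
  have hn0 : (0 : ℝ) ≤ n := Nat.cast_nonneg n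
  have hnk : (n : ℝ) ≤ k ^ (1 : ℝ) := by rw [hone]; exact hN.nk
  have hd : k ^ (0.99 : ℝ) ≤ kd s eps := by
    unfold kd
    have h1 : 0 < s := lt_of_lt_of_le (hpos _) hN.s1
    nlinarith [hN.s1, hN.e0]
  have hd0 : 0 < kd s eps := lt_of_lt_of_le (hpos _) hd
  have hr : kr k = k ^ (-0.53 : ℝ) := rfl
  have hr0 : 0 < kr k := hpos _
  -- z
  have hT : k ^ (0.476 : ℝ) ≤ (kT k : ℝ) + 1 := (Nat.lt_floor_add_one _).le
  have hT' : (kT k : ℝ) ≤ k ^ (0.476 : ℝ) := Nat.floor_le (hpos _).le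
  have hz : kz k ≤ k ^ (-1.006 : ℝ) := by
    unfold kz
    rw [div_le_iff₀ (by positivity)]
    calc kr k = k ^ (-1.006 : ℝ) * k ^ (0.476 : ℝ) := by
          rw [hadd, hr]
          norm_num
      _ ≤ k ^ (-1.006 : ℝ) * ((kT k : ℝ) + 1) := mul_le_mul_of_nonneg_left hT (hpos _).le
  have hz0 : 0 ≤ kz k := by
    unfold kz
    positivity
  have hr2 : kr k ^ 2 = k ^ (-1.06 : ℝ) := by
    rw [hr, ← Real.rpow_natCast, ← Real.rpow_mul hkpos.le]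
    norm_num
  -- eps 6
  have hL1 : 1 ≤ kL1 k := by
    unfold kL1
    rw [Nat.one_le_floor_iff]
    exact Real.one_le_rpow hkone (by norm_num)
  have hL1' : (kL1 k : ℝ) ≤ k ^ (0.003 : ℝ) := Nat.floor_le (hpos _).le
  have hL0 : k ^ (0.539 : ℝ) / 4 ≤ kL0 k := Nat.le_ceil _
  have hdiv : k ^ (0.536 : ℝ) / 8 ≤ ((kL0 k / kL1 k : ℕ) : ℝ) := by
    have h1 : ((kL0 k : ℝ) / kL1 k) < ((kL0 k / kL1 k : ℕ) : ℝ) + 1 := by
      rw [← Nat.floor_div_eq_div (K := ℝ)]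
      exact Nat.lt_floor_add_one _
    have h2 : k ^ (0.536 : ℝ) / 4 ≤ (kL0 k : ℝ) / kL1 k := by
      rw [le_div_iff₀ (by exact_mod_cast hL1)]
      calc k ^ (0.536 : ℝ) / 4 * kL1 k ≤ k ^ (0.536 : ℝ) / 4 * k ^ (0.003 : ℝ) :=
            mul_le_mul_of_nonneg_left hL1' (by positivity)
        _ = k ^ (0.539 : ℝ) / 4 := by
            rw [div_mul_eq_mul_div, hadd]
            norm_num
        _ ≤ kL0 k := hL0
    linarith
  have he6 : Real.exp (-(kr k * (kL0 k / kL1 k : ℕ) / 12)) ≤ kε7 k := by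
    unfold kε7
    apply Real.exp_le_exp.mpr
    have h1 : k ^ (0.006 : ℝ) / 96 ≤ kr k * ((kL0 k / kL1 k : ℕ) : ℝ) / 12 := by
      have h2 : kr k * (k ^ (0.536 : ℝ) / 8) ≤ kr k * ((kL0 k / kL1 k : ℕ) : ℝ) :=
        mul_le_mul_of_nonneg_left hdiv hr0.le
      have h3 : kr k * (k ^ (0.536 : ℝ) / 8) = k ^ (0.006 : ℝ) / 8 := by
        rw [mul_div_assoc', hr, hadd]
        norm_num
      linarith
    have h2 : k ^ (0.005 : ℝ) * 96 ≤ k ^ (0.006 : ℝ) := by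
      calc k ^ (0.005 : ℝ) * 96 ≤ k ^ (0.005 : ℝ) * k ^ (0.001 : ℝ) :=
            mul_le_mul_of_nonneg_left hk5 (hpos _).le
        _ = k ^ (0.006 : ℝ) := by
            rw [hadd]
            norm_num
    linarith
  have hexp : (60 * ((B : ℝ) + 1)) = ((60 * (B + 1) : ℕ) : ℝ) := by
    push_cast
    ring
  have hε : kεB k B = (k ^ (60 * (B + 1)))⁻¹ := by
    unfold kεB
    rw [Real.rpow_neg hkpos.le, hexp, Real.rpow_natCast]
  have he7 : kε7 k ≤ (k ^ (60 * (B + 1)))⁻¹ := by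
    rw [← hε]
    unfold kε7 kεB
    rw [← Real.exp_log (hpos (-(60 * ((B : ℝ) + 1)))), Real.log_rpow hkpos]
    apply Real.exp_le_exp.mpr
    linarith
  have hε0 : 0 ≤ kεB k B := (hpos _).le
  have hε70 : 0 ≤ kε7 k := (Real.exp_pos _).le
  have hinv : ∀ m : ℕ, 1 ≤ m → (k ^ m)⁻¹ ≤ 1 / 4 := by
    intro m hm
    rw [inv_le_comm₀ (by positivity) (by norm_num)]
    calc (1 / 4 : ℝ)⁻¹ = 4 := by norm_num
      _ ≤ k := le_trans (by norm_num) hk1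
      _ = k ^ 1 := (pow_one k).symm
      _ ≤ k ^ m := pow_le_pow_right₀ hkone hm
  -- the exponent
  have hM1 : kM B - 1 = 99999 + 100000 * B := by
    unfold kM
    omega
  have hMr : ((kM B - 1 : ℕ) : ℝ) = 99999 + 100000 * (B : ℝ) := by
    rw [hM1]
    push_cast
    ring
  refine ⟨hε0, ?_, ?_, ?_, ?_, ?_, ?_, ?_, ?_⟩
  · rw [hε]
    have := hinv (60 * (B + 1)) (by omega)
    linarith
  · -- D
    refine nub2_pw k _ 0.006 B (kM B - 1) hkone (by positivity) ?_ (by rw [hMr]; nlinarith)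
    have h1 : (n : ℝ) * (4 * kz k + 12 * kr k ^ 2) ≤ 16 * k ^ (-0.006 : ℝ) := by
      calc (n : ℝ) * (4 * kz k + 12 * kr k ^ 2)
          ≤ k ^ (1 : ℝ) * (4 * k ^ (-1.006 : ℝ) + 12 * k ^ (-1.006 : ℝ)) := by
            refine mul_le_mul hnk ?_ (by positivity) (hpos _).le
            have h2 := hmono (-1.06) (-1.006) (by norm_num)
            rw [hr2]
            linarith
        _ = 16 * (k ^ (1 : ℝ) * k ^ (-1.006 : ℝ)) := by ring
        _ = 16 * k ^ (-0.006 : ℝ) := by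
            rw [hadd]
            norm_num
    rw [hMr, div_le_iff₀ (by positivity)]
    have h3 := hpos (-0.006 : ℝ)
    calc Real.exp 1 * ((n : ℝ) * (4 * kz k + 12 * kr k ^ 2))
        ≤ Real.exp 1 * (16 * k ^ (-0.006 : ℝ)) := mul_le_mul_of_nonneg_left h1 he0.le
      _ ≤ k ^ (-0.006 : ℝ) * (99999 + 100000 * (B : ℝ)) := by
          have h4 := mul_nonneg h3.le hB0
          nlinarith
  · -- J
    refine nub2_pw k _ 0.02 B (kM B - 1) hkone (by positivity) ?_ (by rw [hMr]; nlinarith)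
    have hτ : (kτ k 0 : ℝ) + 1 ≤ 3 * k ^ (0.5 : ℝ) := by
      have h1 : (kτ k 0 : ℝ) < k ^ (0.5 : ℝ) + 1 := by
        have h2 : kex 0 = 0.5 := rfl
        unfold kτ
        rw [h2]
        exact Nat.ceil_lt_add_one (hpos _).le
      have h3 : (1 : ℝ) ≤ k ^ (0.5 : ℝ) := Real.one_le_rpow hkone (by norm_num)
      linarith
    have h1 : (n : ℝ) * (20 * kr k * (kτ k 0 + 1) / kd s eps) ≤ 60 * k ^ (-0.02 : ℝ) := by
      calc (n : ℝ) * (20 * kr k * (kτ k 0 + 1) / kd s eps)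
          ≤ k ^ (1 : ℝ) * (20 * kr k * (3 * k ^ (0.5 : ℝ)) / k ^ (0.99 : ℝ)) := by
            refine mul_le_mul hnk ?_ (by positivity) (hpos _).le
            refine div_le_div₀ (by positivity) ?_ (hpos _) hd
            exact mul_le_mul_of_nonneg_left hτ (by positivity)
        _ = 60 * (k ^ (1 : ℝ) * (k ^ (-0.53 : ℝ) * (k ^ (0.5 : ℝ) * k ^ (-0.99 : ℝ)))) := by
            rw [Real.rpow_neg hkpos.le 0.99, hr]
            ring
        _ = 60 * k ^ (-0.02 : ℝ) := by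
            rw [hadd, hadd, hadd]
            norm_num
    rw [hMr, div_le_iff₀ (by positivity)]
    have h3 := hpos (-0.02 : ℝ)
    calc Real.exp 1 * ((n : ℝ) * (20 * kr k * (kτ k 0 + 1) / kd s eps))
        ≤ Real.exp 1 * (60 * k ^ (-0.02 : ℝ)) := mul_le_mul_of_nonneg_left h1 he0.le
      _ ≤ k ^ (-0.02 : ℝ) * (99999 + 100000 * (B : ℝ)) := by
          have h4 := mul_nonneg h3.le hB0
          nlinarith
  · -- I
    intro a _
    obtain ⟨Y, hY⟩ : ∃ Y : ℝ, n * kq k (kd s eps) (kτ k (a + 1)) = Y := ⟨_, rfl⟩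
    have hY0 : 0 ≤ Y := by
      rw [← hY]
      unfold kq
      positivity
    have hm : kmB k n (kd s eps) B a - 1 = ⌈k ^ (0.001 : ℝ) * Y⌉₊ + (99999 + 100000 * B) := by
      unfold kmB kM
      rw [hY]
      omega
    rw [hm, hY]
    have hc0 := Nat.cast_nonneg (α := ℝ) ⌈k ^ (0.001 : ℝ) * Y⌉₊
    have hmr : k ^ (0.001 : ℝ) * Y ≤
        ((⌈k ^ (0.001 : ℝ) * Y⌉₊ + (99999 + 100000 * B) : ℕ) : ℝ) := by
      push_cast
      have := Nat.le_ceil (k ^ (0.001 : ℝ) * Y)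
      linarith
    have hm9 : (99999 : ℝ) + 100000 * B ≤
        ((⌈k ^ (0.001 : ℝ) * Y⌉₊ + (99999 + 100000 * B) : ℕ) : ℝ) := by
      push_cast
      linarith
    refine nub2_pw k _ 0.0007 B _ hkone (by positivity) ?_ (by nlinarith)
    rw [div_le_iff₀ (by linarith)]
    calc Real.exp 1 * Y ≤ k ^ (0.0003 : ℝ) * Y := mul_le_mul_of_nonneg_right hk2 hY0
      _ = k ^ (-0.0007 : ℝ) * (k ^ (0.001 : ℝ) * Y) := by
          rw [← mul_assoc, hadd]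
          norm_num
      _ ≤ _ := mul_le_mul_of_nonneg_left hmr (hpos _).le
  · -- dup
    refine nub2_pw k _ 0.05 B (kM B - 1) hkone (by positivity) ?_ (by rw [hMr]; nlinarith)
    have hn2 : (n : ℝ) ^ 2 ≤ k ^ (2 : ℝ) := by
      have h1 : k ^ (2 : ℝ) = k ^ 2 := by exact_mod_cast Real.rpow_natCast k 2
      rw [h1]
      exact pow_le_pow_left₀ hn0 hN.nk 2
    have h1 : (n : ℝ) ^ 2 * (4 * kr k ^ 2 / kd s eps) ≤ 4 * k ^ (-0.05 : ℝ) := by
      calc (n : ℝ) ^ 2 * (4 * kr k ^ 2 / kd s eps)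
          ≤ k ^ (2 : ℝ) * (4 * k ^ (-1.06 : ℝ) / k ^ (0.99 : ℝ)) := by
            refine mul_le_mul hn2 ?_ (by positivity) (hpos _).le
            rw [hr2]
            exact div_le_div₀ (by positivity) le_rfl (hpos _) hd
        _ = 4 * (k ^ (2 : ℝ) * (k ^ (-1.06 : ℝ) * k ^ (-0.99 : ℝ))) := by
            rw [Real.rpow_neg hkpos.le 0.99]
            ring
        _ = 4 * k ^ (-0.05 : ℝ) := by
            rw [hadd, hadd]
            norm_num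
    rw [hMr, div_le_iff₀ (by positivity)]
    have h3 := hpos (-0.05 : ℝ)
    calc Real.exp 1 * ((n : ℝ) ^ 2 * (4 * kr k ^ 2 / kd s eps))
        ≤ Real.exp 1 * (4 * k ^ (-0.05 : ℝ)) := mul_le_mul_of_nonneg_left h1 he0.le
      _ ≤ k ^ (-0.05 : ℝ) * (99999 + 100000 * (B : ℝ)) := by
          have h4 := mul_nonneg h3.le hB0
          nlinarith
  · -- e7
    exact he7.trans (hinv _ (by omega))
  · exact he6
  · -- sum
    have hk2' : k ≤ k ^ 2 := by nlinarith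
    have hkn : ∀ m : ℕ, 0 < k ^ m := fun m => pow_pos hkpos m
    have hL : (kL k : ℝ) ≤ 2 * k ^ 2 := by
      have h1 : (kL k : ℝ) < k ^ (1.012 : ℝ) + 1 := by
        have h2 : kex 11 = 1.012 := rfl
        unfold kL kτ
        rw [h2]
        exact Nat.ceil_lt_add_one (hpos _).le
      have h3 : k ^ (1.012 : ℝ) ≤ k ^ (2 : ℝ) := hmono _ _ (by norm_num)
      have h4 : k ^ (2 : ℝ) = k ^ 2 := by exact_mod_cast Real.rpow_natCast k 2
      rw [h4] at h3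
      nlinarith
    have hL' : (0 : ℝ) ≤ kL k := Nat.cast_nonneg _
    have hT1 : (kT k : ℝ) + 1 ≤ 2 * k := by
      have h1 : k ^ (0.476 : ℝ) ≤ k ^ (1 : ℝ) := hmono _ _ (by norm_num)
      rw [hone] at h1
      linarith
    have hL02 : (kL0 k : ℝ) ≤ 2 * k := by
      have h1 : (kL0 k : ℝ) < k ^ (0.539 : ℝ) / 4 + 1 := Nat.ceil_lt_add_one (by positivity)
      have h2 : k ^ (0.539 : ℝ) ≤ k ^ (1 : ℝ) := hmono _ _ (by norm_num)
      rw [hone] at h2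
      linarith
    have hBp : (1 : ℝ) ≤ k ^ B := one_le_pow₀ hkone
    have hB1 : (kB1 k B : ℝ) ≤ 2 * k ^ B := by
      have h1 : (kB1 k B : ℝ) < k ^ (B : ℝ) + 1 := Nat.ceil_lt_add_one (hpos _).le
      rw [Real.rpow_natCast] at h1
      linarith
    have hb1 : ((30 * kB1 k B : ℕ) : ℝ) ≤ 60 * k ^ B := by
      push_cast
      linarith
    have hm0 : ((kL0 k + 3 * kB1 k B : ℕ) : ℝ) ≤ 8 * k ^ (B + 1) := by
      push_cast
      have h1 : k ≤ k ^ (B + 1) := by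
        calc k = k ^ 1 := (pow_one k).symm
          _ ≤ k ^ (B + 1) := pow_le_pow_right₀ hkone (by omega)
      have h2 : k ^ B ≤ k ^ (B + 1) := pow_le_pow_right₀ hkone (by omega)
      linarith
    obtain ⟨K, hK⟩ : ∃ K : ℝ, K = 100 * ((B : ℝ) + 1) := ⟨_, rfl⟩
    have hK1 : (100 : ℝ) ≤ K := by rw [hK]; linarith
    have hKK : ((kK B : ℕ) : ℝ) = K := by
      unfold kK
      rw [hK]
      push_cast
      ring
    have hNB : NB (kL k) (kK B) ≤ 195 * K * k ^ 4 := by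
      unfold NB
      rw [hKK]
      have h1 : 4 * (kL k : ℝ) + 5 ≤ 13 * k ^ 2 := by nlinarith
      have h3 : (1 : ℝ) ≤ k ^ 2 := one_le_pow₀ hkone
      have h2 : 1 + K * (4 * (kL k : ℝ) + 5) + K ≤ 15 * K * k ^ 2 := by
        have h4 : K * (4 * (kL k : ℝ) + 5) ≤ K * (13 * k ^ 2) :=
          mul_le_mul_of_nonneg_left h1 (by linarith)
        have h5 : K * 1 ≤ K * k ^ 2 := mul_le_mul_of_nonneg_left h3 (by linarith)
        linarith
      calc (4 * (kL k : ℝ) + 5) * (1 + K * (4 * (kL k : ℝ) + 5) + K)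
          ≤ (13 * k ^ 2) * (15 * K * k ^ 2) := mul_le_mul h1 h2 (by positivity) (by positivity)
        _ = 195 * K * k ^ 4 := by ring
    have hNB0 : 0 ≤ NB (kL k) (kK B) := by
      unfold NB
      positivity
    have hrK : (2 * kr k) ^ kK B ≤ (k ^ (52 * (B + 1)))⁻¹ := by
      have h1 : (2 * kr k) ^ 100 ≤ (k ^ 52)⁻¹ := by
        rw [mul_pow, hr, ← Real.rpow_natCast (k ^ (-0.53 : ℝ)), ← Real.rpow_mul hkpos.le]
        have h1 : ((-0.53 : ℝ) * ((100 : ℕ) : ℝ)) = -((53 : ℕ) : ℝ) := by norm_num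
        rw [h1, Real.rpow_neg hkpos.le, Real.rpow_natCast]
        have h2 : (2 : ℝ) ^ 100 ≤ k := le_trans (by norm_num) hk1
        calc (2 : ℝ) ^ 100 * (k ^ 53)⁻¹ ≤ k * (k ^ 53)⁻¹ :=
              mul_le_mul_of_nonneg_right h2 (by positivity)
          _ = (k ^ 52)⁻¹ := by field_simp
      unfold kK
      rw [pow_mul, pow_mul, ← inv_pow]
      exact pow_le_pow_left₀ (by positivity) h1 _
    have hr00 : 0 ≤ (2 * kr k) ^ kK B := by positivity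
    have hLp2 : 200 * ((kL k : ℝ) + 1) ^ 2 ≤ 1800 * k ^ 4 := by
      have : ((kL k : ℝ) + 1) ^ 2 ≤ (3 * k ^ 2) ^ 2 := by
        refine pow_le_pow_left₀ (by positivity) ?_ 2
        nlinarith
      linarith [show (3 * k ^ 2) ^ 2 = 9 * k ^ 4 by ring]
    have hLp3 : 400 * ((kL k : ℝ) + 1) ^ 3 ≤ 10800 * k ^ 6 := by
      have : ((kL k : ℝ) + 1) ^ 3 ≤ (3 * k ^ 2) ^ 3 := by
        refine pow_le_pow_left₀ (by positivity) ?_ 3
        nlinarith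
      linarith [show (3 * k ^ 2) ^ 3 = 27 * k ^ 6 by ring]
    rw [hKK, hε]
    exact nub2_sum k K _ _ _ _ _ _ _ _ _ _ _ B hkone (by rw [hK]; exact hkK) hK1
      (Nat.cast_nonneg _) (Nat.cast_nonneg _) hn0 hNB0 (by positivity) hε70 hr00 (by positivity)
      (by positivity) hb1 hm0 hN.nk hNB hT1 he7 hrK hLp2 hLp3 rfl rfl

end Pool.Agent.C4K
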