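import Pool.Agent.C4K.StNum

/-!
NU2: numbers, part 2.
-/

set_option autoImplicit false

namespace Pool.Agent.C4K

open Finset Cl Filter
open scoped Classical

lemma nu2_pw (k x c : ℝ) (m : ℕ) (hk : 1 ≤ k) (hx0 : 0 ≤ x) (hx : x ≤ k ^ (-c))
    (hcm : 60 ≤ c * m) : x ^ m ≤ kε k := by
  have h1 : x ^ m ≤ (k ^ (-c)) ^ m := pow_le_pow_left₀ hx0 hx m
  have h2 : (k ^ (-c)) ^ m = k ^ (-c * m) := by
    rw [← Real.rpow_natCast, ← Real.rpow_mul (by linarith)]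
  rw [h2] at h1
  refine h1.trans (Real.rpow_le_rpow_of_exponent_le hk ?_)
  linarith

lemma nu2_ev : ∀ᶠ k : ℝ in atTop, 2 ^ 101 ≤ k ∧ Real.exp 1 ≤ k ^ (0.0003 : ℝ) ∧
    8 ≤ k ^ (0.536 : ℝ) ∧ 10 * Real.log k ≤ k ^ (0.006 : ℝ) / 96 := by
  have h1 : ∀ᶠ k : ℝ in atTop, (2 : ℝ) ^ 101 ≤ k := eventually_ge_atTop _
  have h2 : ∀ᶠ k : ℝ in atTop, Real.exp 1 ≤ k ^ (0.0003 : ℝ) :=
    (tendsto_rpow_atTop (by norm_num)).eventually (eventually_ge_atTop _)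
  have h3 : ∀ᶠ k : ℝ in atTop, (8 : ℝ) ≤ k ^ (0.536 : ℝ) :=
    (tendsto_rpow_atTop (by norm_num)).eventually (eventually_ge_atTop _)
  have h4 := (isLittleO_log_rpow_atTop (show (0 : ℝ) < 0.006 by norm_num)).bound
    (show (0 : ℝ) < 1 / 960 by norm_num)
  filter_upwards [h1, h2, h3, h4] with k h1 h2 h3 h4
  refine ⟨h1, h2, h3, ?_⟩
  have hk : 0 ≤ k := le_trans (by positivity) h1
  rw [Real.norm_of_nonneg (Real.rpow_nonneg hk _)] at h4
  have h5 : Real.log k ≤ 1 / 960 * k ^ (0.006 : ℝ) := (le_abs_self _).trans h4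
  linarith

theorem nu2 : NU2Stmt := by
  obtain ⟨k0, hk0⟩ := eventually_atTop.mp nu2_ev
  refine ⟨k0, fun k n s eps hk hN => ?_⟩
  obtain ⟨hk1, hk2, hk3, hk4⟩ := hk0 k hk
  have hkone : (1 : ℝ) ≤ k := le_trans (by norm_num) hk1
  have hkpos : (0 : ℝ) < k := lt_of_lt_of_le one_pos hkone
  have hadd : ∀ x y : ℝ, k ^ x * k ^ y = k ^ (x + y) := fun x y =>
    (Real.rpow_add hkpos x y).symm
  have hmono : ∀ x y : ℝ, x ≤ y → k ^ x ≤ k ^ y := fun x y h =>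
    Real.rpow_le_rpow_of_exponent_le hkone h
  have hpos : ∀ x : ℝ, 0 < k ^ x := fun x => Real.rpow_pos_of_pos hkpos x
  have hone : k ^ (1 : ℝ) = k := Real.rpow_one k
  have he := Real.exp_one_lt_d9
  have he0 : 0 < Real.exp 1 := Real.exp_pos 1
  have hn0 : (0 : ℝ) ≤ n := Nat.cast_nonneg n
  have hnk : (n : ℝ) ≤ k ^ (1 : ℝ) := by rw [hone]; exact hN.nk
  have hd : k ^ (0.99 : ℝ) ≤ kd s eps := by
    unfold kd
    have h1 : 0 < s := lt_of_lt_of_le (hpos _) hN.s1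
    nlinarith [hN.s1, hN.e0]
  have hd0 : 0 < kd s eps := lt_of_lt_of_le (hpos _) hd
  have hr : kr k = k ^ (-0.53 : ℝ) := rfl
  have hr0 : 0 < kr k := hpos _
  -- z
  have hT : k ^ (0.476 : ℝ) ≤ (kT k : ℝ) + 1 := (Nat.lt_floor_add_one _).le
  have hT' : (kT k : ℝ) ≤ k ^ (0.476 : ℝ) := Nat.floor_le (hpos _).le
  have hz : kz k ≤ k ^ (-1.006 : ℝ) := by
    unfold kz
    rw [div_le_iff₀ (by positivity)]
    calc kr k = k ^ (-1.006 : ℝ) * k ^ (0.476 : ℝ) := by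
          rw [hadd, hr]
          norm_num
      _ ≤ k ^ (-1.006 : ℝ) * ((kT k : ℝ) + 1) := mul_le_mul_of_nonneg_left hT (hpos _).le
  have hz0 : 0 ≤ kz k := by
    unfold kz
    positivity
  have hr2 : kr k ^ 2 = k ^ (-1.06 : ℝ) := by
    rw [hr, ← Real.rpow_natCast, ← Real.rpow_mul hkpos.le]
    norm_num
  -- eps 6
  have hL1 : 1 ≤ kL1 k := by
    unfold kL1
    rw [Nat.one_le_floor_iff]
    exact Real.one_le_rpow hkone (by norm_num)
  have hL1' : (kL1 k : ℝ) ≤ k ^ (0.003 : ℝ) := Nat.floor_le (hpos _).le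
  have hL0 : k ^ (0.539 : ℝ) / 4 ≤ kL0 k := Nat.le_ceil _
  have hdiv : k ^ (0.536 : ℝ) / 8 ≤ ((kL0 k / kL1 k : ℕ) : ℝ) := by
    have h1 : ((kL0 k : ℝ) / kL1 k) < ((kL0 k / kL1 k : ℕ) : ℝ) + 1 := by
      rw [← Nat.floor_div_eq_div (K := ℝ)]
      exact Nat.lt_floor_add_one _
    have h2 : k ^ (0.536 : ℝ) / 4 ≤ (kL0 k : ℝ) / kL1 k := by
      rw [le_div_iff₀ (by exact_mod_cast hL1)]
      calc k ^ (0.536 : ℝ) / 4 * kL1 k ≤ k ^ (0.536 : ℝ) / 4 * k ^ (0.003 : ℝ) :=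
            mul_le_mul_of_nonneg_left hL1' (by positivity)
        _ = k ^ (0.539 : ℝ) / 4 := by
            rw [div_mul_eq_mul_div, hadd]
            norm_num
        _ ≤ kL0 k := hL0
    linarith
  have he6 : kε6 k ≤ k ^ (-10 : ℝ) := by
    unfold kε6
    rw [← Real.exp_log (hpos (-10 : ℝ)), Real.log_rpow hkpos]
    apply Real.exp_le_exp.mpr
    have h1 : k ^ (0.006 : ℝ) / 96 ≤ kr k * ((kL0 k / kL1 k : ℕ) : ℝ) / 12 := by
      have h2 : kr k * (k ^ (0.536 : ℝ) / 8) ≤ kr k * ((kL0 k / kL1 k : ℕ) : ℝ) :=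
        mul_le_mul_of_nonneg_left hdiv hr0.le
      have h3 : kr k * (k ^ (0.536 : ℝ) / 8) = k ^ (0.006 : ℝ) / 8 := by
        rw [mul_div_assoc', hr, hadd]
        norm_num
      linarith
    linarith
  have hε : kε k = (k ^ 60)⁻¹ := by
    unfold kε
    rw [Real.rpow_neg hkpos.le]
    congr 1
    exact_mod_cast Real.rpow_natCast k 60
  have he6' : kε6 k ≤ (k ^ 10)⁻¹ := by
    refine he6.trans (le_of_eq ?_)
    rw [Real.rpow_neg hkpos.le]
    congr 1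
    exact_mod_cast Real.rpow_natCast k 10
  have hε0 : 0 ≤ kε k := (hpos _).le
  have hε60 : 0 ≤ kε6 k := (Real.exp_pos _).le
  have hinv : ∀ m : ℕ, 1 ≤ m → (k ^ m)⁻¹ ≤ 1 / 4 := by
    intro m hm
    rw [inv_le_comm₀ (by positivity) (by norm_num)]
    calc (1 / 4 : ℝ)⁻¹ = 4 := by norm_num
      _ ≤ k := le_trans (by norm_num) hk1
      _ = k ^ 1 := (pow_one k).symm
      _ ≤ k ^ m := pow_le_pow_right₀ hkone hm
  refine ⟨hε0, ?_, ?_, ?_, ?_, ?_, ?_, ?_⟩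
  · rw [hε]
    have := hinv 60 (by norm_num)
    linarith
  · -- D
    refine nu2_pw k _ 0.006 99999 hkone (by positivity) ?_ (by norm_num)
    have h1 : (n : ℝ) * (4 * kz k + 12 * kr k ^ 2) ≤ 16 * k ^ (-0.006 : ℝ) := by
      calc (n : ℝ) * (4 * kz k + 12 * kr k ^ 2)
          ≤ k ^ (1 : ℝ) * (4 * k ^ (-1.006 : ℝ) + 12 * k ^ (-1.006 : ℝ)) := by
            refine mul_le_mul hnk ?_ (by positivity) (hpos _).le
            have h2 := hmono (-1.06) (-1.006) (by norm_num)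
            rw [hr2]
            linarith
        _ = 16 * (k ^ (1 : ℝ) * k ^ (-1.006 : ℝ)) := by ring
        _ = 16 * k ^ (-0.006 : ℝ) := by
            rw [hadd]
            norm_num
    rw [div_le_iff₀ (by norm_num)]
    push_cast
    have h3 := hpos (-0.006 : ℝ)
    calc Real.exp 1 * ((n : ℝ) * (4 * kz k + 12 * kr k ^ 2))
        ≤ Real.exp 1 * (16 * k ^ (-0.006 : ℝ)) := mul_le_mul_of_nonneg_left h1 he0.le
      _ ≤ k ^ (-0.006 : ℝ) * 99999 := by nlinarith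
  · -- J
    refine nu2_pw k _ 0.02 99999 hkone (by positivity) ?_ (by norm_num)
    have hτ : (kτ k 0 : ℝ) + 1 ≤ 3 * k ^ (0.5 : ℝ) := by
      have h1 : (kτ k 0 : ℝ) < k ^ (0.5 : ℝ) + 1 := by
        have h2 : kex 0 = 0.5 := rfl
        unfold kτ
        rw [h2]
        exact Nat.ceil_lt_add_one (hpos _).le
      have h3 : (1 : ℝ) ≤ k ^ (0.5 : ℝ) := Real.one_le_rpow hkone (by norm_num)
      linarith
    have h1 : (n : ℝ) * (20 * kr k * (kτ k 0 + 1) / kd s eps) ≤ 60 * k ^ (-0.02 : ℝ) := by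
      calc (n : ℝ) * (20 * kr k * (kτ k 0 + 1) / kd s eps)
          ≤ k ^ (1 : ℝ) * (20 * kr k * (3 * k ^ (0.5 : ℝ)) / k ^ (0.99 : ℝ)) := by
            refine mul_le_mul hnk ?_ (by positivity) (hpos _).le
            refine div_le_div₀ (by positivity) ?_ (hpos _) hd
            exact mul_le_mul_of_nonneg_left hτ (by positivity)
        _ = 60 * (k ^ (1 : ℝ) * (k ^ (-0.53 : ℝ) * (k ^ (0.5 : ℝ) * k ^ (-0.99 : ℝ)))) := by
            rw [Real.rpow_neg hkpos.le 0.99, hr]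
            ring
        _ = 60 * k ^ (-0.02 : ℝ) := by
            rw [hadd, hadd, hadd]
            norm_num
    rw [div_le_iff₀ (by norm_num)]
    push_cast
    have h3 := hpos (-0.02 : ℝ)
    calc Real.exp 1 * ((n : ℝ) * (20 * kr k * (kτ k 0 + 1) / kd s eps))
        ≤ Real.exp 1 * (60 * k ^ (-0.02 : ℝ)) := mul_le_mul_of_nonneg_left h1 he0.le
      _ ≤ k ^ (-0.02 : ℝ) * 99999 := by nlinarith
  · -- I
    intro a _
    obtain ⟨Y, hY⟩ : ∃ Y : ℝ, n * kq k (kd s eps) (kτ k (a + 1)) = Y := ⟨_, rfl⟩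
    have hY0 : 0 ≤ Y := by
      rw [← hY]
      unfold kq
      positivity
    have hm : km k n (kd s eps) a - 1 = ⌈k ^ (0.001 : ℝ) * Y⌉₊ + 99999 := by
      unfold km
      rw [hY]
      omega
    rw [hm, hY]
    have hmr : k ^ (0.001 : ℝ) * Y ≤ ((⌈k ^ (0.001 : ℝ) * Y⌉₊ + 99999 : ℕ) : ℝ) := by
      push_cast
      have := Nat.le_ceil (k ^ (0.001 : ℝ) * Y)
      linarith
    have hm9 : (99999 : ℝ) ≤ ((⌈k ^ (0.001 : ℝ) * Y⌉₊ + 99999 : ℕ) : ℝ) := by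
      push_cast
      have := Nat.cast_nonneg (α := ℝ) ⌈k ^ (0.001 : ℝ) * Y⌉₊
      linarith
    refine nu2_pw k _ 0.0007 _ hkone (by positivity) ?_ (by linarith)
    rw [div_le_iff₀ (by linarith)]
    calc Real.exp 1 * Y ≤ k ^ (0.0003 : ℝ) * Y := mul_le_mul_of_nonneg_right hk2 hY0
      _ = k ^ (-0.0007 : ℝ) * (k ^ (0.001 : ℝ) * Y) := by
          rw [← mul_assoc, hadd]
          norm_num
      _ ≤ _ := mul_le_mul_of_nonneg_left hmr (hpos _).le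
  · -- dup
    refine nu2_pw k _ 0.05 99999 hkone (by positivity) ?_ (by norm_num)
    have hn2 : (n : ℝ) ^ 2 ≤ k ^ (2 : ℝ) := by
      have h1 : k ^ (2 : ℝ) = k ^ 2 := by exact_mod_cast Real.rpow_natCast k 2
      rw [h1]
      exact pow_le_pow_left₀ hn0 hN.nk 2
    have h1 : (n : ℝ) ^ 2 * (4 * kr k ^ 2 / kd s eps) ≤ 4 * k ^ (-0.05 : ℝ) := by
      calc (n : ℝ) ^ 2 * (4 * kr k ^ 2 / kd s eps)
          ≤ k ^ (2 : ℝ) * (4 * k ^ (-1.06 : ℝ) / k ^ (0.99 : ℝ)) := by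
            refine mul_le_mul hn2 ?_ (by positivity) (hpos _).le
            rw [hr2]
            exact div_le_div₀ (by positivity) le_rfl (hpos _) hd
        _ = 4 * (k ^ (2 : ℝ) * (k ^ (-1.06 : ℝ) * k ^ (-0.99 : ℝ))) := by
            rw [Real.rpow_neg hkpos.le 0.99]
            ring
        _ = 4 * k ^ (-0.05 : ℝ) := by
            rw [hadd, hadd]
            norm_num
    rw [div_le_iff₀ (by norm_num)]
    push_cast
    have h3 := hpos (-0.05 : ℝ)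
    calc Real.exp 1 * ((n : ℝ) ^ 2 * (4 * kr k ^ 2 / kd s eps))
        ≤ Real.exp 1 * (4 * k ^ (-0.05 : ℝ)) := mul_le_mul_of_nonneg_left h1 he0.le
      _ ≤ k ^ (-0.05 : ℝ) * 99999 := by nlinarith
  · exact he6'.trans (hinv 10 (by norm_num))
  · -- sum
    have hk2' : k ≤ k ^ 2 := by nlinarith
    have hkn : ∀ m : ℕ, 0 < k ^ m := fun m => pow_pos hkpos m
    have hL : (kL k : ℝ) ≤ 2 * k ^ 2 := by
      have h1 : (kL k : ℝ) < k ^ (1.012 : ℝ) + 1 := by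
        have h2 : kex 11 = 1.012 := rfl
        unfold kL kτ
        rw [h2]
        exact Nat.ceil_lt_add_one (hpos _).le
      have h3 : k ^ (1.012 : ℝ) ≤ k ^ (2 : ℝ) := hmono _ _ (by norm_num)
      have h4 : k ^ (2 : ℝ) = k ^ 2 := by exact_mod_cast Real.rpow_natCast k 2
      rw [h4] at h3
      nlinarith
    have hL' : (0 : ℝ) ≤ kL k := Nat.cast_nonneg _
    have hT1 : (kT k : ℝ) + 1 ≤ 2 * k := by
      have h1 : k ^ (0.476 : ℝ) ≤ k ^ (1 : ℝ) := hmono _ _ (by norm_num)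
      rw [hone] at h1
      linarith
    have hL02 : (kL0 k : ℝ) ≤ 2 * k := by
      have h1 : (kL0 k : ℝ) < k ^ (0.539 : ℝ) / 4 + 1 := Nat.ceil_lt_add_one (by positivity)
      have h2 : k ^ (0.539 : ℝ) ≤ k ^ (1 : ℝ) := hmono _ _ (by norm_num)
      rw [hone] at h2
      linarith
    have hL03 : (0 : ℝ) ≤ kL0 k := Nat.cast_nonneg _
    have hNB : NB (kL k) 100 ≤ 20000 * k ^ 4 := by
      unfold NB
      have h1 : 4 * (kL k : ℝ) + 5 ≤ 13 * k ^ 2 := by nlinarith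
      have h2 : 1 + ((100 : ℕ) : ℝ) * (4 * (kL k : ℝ) + 5) + ((100 : ℕ) : ℝ) ≤ 1401 * k ^ 2 := by
        push_cast
        nlinarith
      calc (4 * (kL k : ℝ) + 5) * (1 + ((100 : ℕ) : ℝ) * (4 * (kL k : ℝ) + 5) + ((100 : ℕ) : ℝ))
          ≤ (13 * k ^ 2) * (1401 * k ^ 2) := mul_le_mul h1 h2 (by positivity) (by positivity)
        _ = 18213 * k ^ 4 := by ring
        _ ≤ 20000 * k ^ 4 := by nlinarith [hkn 4]
    have hNB0 : 0 ≤ NB (kL k) 100 := by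
      unfold NB
      positivity
    have hr100 : (2 * kr k) ^ 100 = 2 ^ 100 * (k ^ 53)⁻¹ := by
      rw [mul_pow, hr, ← Real.rpow_natCast (k ^ (-0.53 : ℝ)), ← Real.rpow_mul hkpos.le]
      have h1 : ((-0.53 : ℝ) * ((100 : ℕ) : ℝ)) = -((53 : ℕ) : ℝ) := by norm_num
      rw [h1, Real.rpow_neg hkpos.le, Real.rpow_natCast]
    have hLp2 : ((kL k : ℝ) + 1) ^ 2 ≤ 9 * k ^ 4 := by
      calc ((kL k : ℝ) + 1) ^ 2 ≤ (3 * k ^ 2) ^ 2 := by
            refine pow_le_pow_left₀ (by positivity) ?_ 2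
            nlinarith
        _ = 9 * k ^ 4 := by ring
    have hLp3 : ((kL k : ℝ) + 1) ^ 3 ≤ 27 * k ^ 6 := by
      calc ((kL k : ℝ) + 1) ^ 3 ≤ (3 * k ^ 2) ^ 3 := by
            refine pow_le_pow_left₀ (by positivity) ?_ 3
            nlinarith
        _ = 27 * k ^ 6 := by ring
    have hA : ((16 : ℕ) : ℝ) * kε k * (200 * ((kL k : ℝ) + 1) ^ 2) + kL0 k * kε6 k ≤
        28802 * (k ^ 9)⁻¹ := by
      have h1 : ((16 : ℕ) : ℝ) * kε k * (200 * ((kL k : ℝ) + 1) ^ 2) ≤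
          ((16 : ℕ) : ℝ) * (k ^ 60)⁻¹ * (200 * (9 * k ^ 4)) := by
        rw [hε]
        refine mul_le_mul_of_nonneg_left ?_ (by positivity)
        linarith
      have h2 : ((16 : ℕ) : ℝ) * (k ^ 60)⁻¹ * (200 * (9 * k ^ 4)) = 28800 * (k ^ 56)⁻¹ := by
        push_cast
        field_simp
        ring
      have h3 : (k ^ 56)⁻¹ ≤ (k ^ 9)⁻¹ :=
        inv_anti₀ (hkn 9) (pow_le_pow_right₀ hkone (by norm_num))
      have h4 : (kL0 k : ℝ) * kε6 k ≤ 2 * (k ^ 9)⁻¹ := by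
        calc (kL0 k : ℝ) * kε6 k ≤ (2 * k) * (k ^ 10)⁻¹ :=
              mul_le_mul hL02 he6' hε60 (by positivity)
          _ = 2 * (k ^ 9)⁻¹ := by field_simp
      linarith
    have hA0 : 0 ≤ ((16 : ℕ) : ℝ) * kε k * (200 * ((kL k : ℝ) + 1) ^ 2) + kL0 k * kε6 k := by
      positivity
    have hB : ((16 : ℕ) : ℝ) * kε k * (400 * ((kL k : ℝ) + 1) ^ 3) +
        ((kT k : ℝ) + 1) * (2 * kr k) ^ 100 ≤ 172801 * (k ^ 51)⁻¹ := by
      have h1 : ((16 : ℕ) : ℝ) * kε k * (400 * ((kL k : ℝ) + 1) ^ 3) ≤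
          ((16 : ℕ) : ℝ) * (k ^ 60)⁻¹ * (400 * (27 * k ^ 6)) := by
        rw [hε]
        refine mul_le_mul_of_nonneg_left ?_ (by positivity)
        linarith
      have h2 : ((16 : ℕ) : ℝ) * (k ^ 60)⁻¹ * (400 * (27 * k ^ 6)) = 172800 * (k ^ 54)⁻¹ := by
        push_cast
        field_simp
        ring
      have h3 : (k ^ 54)⁻¹ ≤ (k ^ 51)⁻¹ :=
        inv_anti₀ (hkn 51) (pow_le_pow_right₀ hkone (by norm_num))
      have h4 : ((kT k : ℝ) + 1) * (2 * kr k) ^ 100 ≤ (k ^ 51)⁻¹ := by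
        rw [hr100]
        calc ((kT k : ℝ) + 1) * (2 ^ 100 * (k ^ 53)⁻¹) ≤ (2 * k) * (2 ^ 100 * (k ^ 53)⁻¹) :=
              mul_le_mul_of_nonneg_right hT1 (by positivity)
          _ = 2 ^ 101 * (k ^ 52)⁻¹ := by
              field_simp
          _ ≤ k * (k ^ 52)⁻¹ := mul_le_mul_of_nonneg_right hk1 (by positivity)
          _ = (k ^ 51)⁻¹ := by field_simp
      linarith
    have hB0 : 0 ≤ ((16 : ℕ) : ℝ) * kε k * (400 * ((kL k : ℝ) + 1) ^ 3) +
        ((kT k : ℝ) + 1) * (2 * kr k) ^ 100 := by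
      positivity
    have hC : (n : ℝ) * ((100 : ℕ) : ℝ) * NB (kL k) 100 * ((kT k : ℝ) + 1) ≤
        4000000 * k ^ 6 := by
      calc (n : ℝ) * ((100 : ℕ) : ℝ) * NB (kL k) 100 * ((kT k : ℝ) + 1)
          ≤ k * ((100 : ℕ) : ℝ) * (20000 * k ^ 4) * (2 * k) := by
            refine mul_le_mul (mul_le_mul (mul_le_mul_of_nonneg_right hN.nk (by positivity)) hNB
              hNB0 (by positivity)) hT1 (by positivity) (by positivity)
        _ = 4000000 * k ^ 6 := by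
            push_cast
            ring
    have hD : (n : ℝ) * (NB (kL k) 100 + kL0 k) ≤ 20002 * k ^ 5 := by
      calc (n : ℝ) * (NB (kL k) 100 + kL0 k) ≤ k * (20000 * k ^ 4 + 2 * k ^ 4) := by
            refine mul_le_mul hN.nk ?_ (by positivity) hkpos.le
            have h1 : k ≤ k ^ 4 := by
              calc k = k ^ 1 := (pow_one k).symm
                _ ≤ k ^ 4 := pow_le_pow_right₀ hkone (by norm_num)
            linarith
        _ = 20002 * k ^ 5 := by ring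
    have hE : (4000000 * k ^ 6) * (28802 * (k ^ 9)⁻¹) ≤ 1 / 8 := by
      have h1 : (4000000 * k ^ 6) * (28802 * (k ^ 9)⁻¹) = 115208000000 * (k ^ 3)⁻¹ := by
        field_simp
        ring
      rw [h1, ← div_eq_mul_inv, div_le_iff₀ (hkn 3)]
      have h2 : (2 : ℝ) ^ 101 ≤ k ^ 3 := hk1.trans (by
        calc k = k ^ 1 := (pow_one k).symm
          _ ≤ k ^ 3 := pow_le_pow_right₀ hkone (by norm_num))
      have h3 : (115208000000 : ℝ) ≤ 1 / 8 * 2 ^ 101 := by norm_num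
      linarith
    have hF : (20002 * k ^ 5) * (172801 * (k ^ 51)⁻¹) ≤ 1 / 8 := by
      have h1 : (20002 * k ^ 5) * (172801 * (k ^ 51)⁻¹) = 3456365602 * (k ^ 46)⁻¹ := by
        field_simp
        ring
      rw [h1, ← div_eq_mul_inv, div_le_iff₀ (hkn 46)]
      have h2 : (2 : ℝ) ^ 101 ≤ k ^ 46 := hk1.trans (by
        calc k = k ^ 1 := (pow_one k).symm
          _ ≤ k ^ 46 := pow_le_pow_right₀ hkone (by norm_num))
      have h3 : (3456365602 : ℝ) ≤ 1 / 8 * 2 ^ 101 := by norm_num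
      linarith
    have h1 := mul_le_mul hC hA hA0 (by positivity)
    have h2 := mul_le_mul hD hB hB0 (by positivity)
    linarith

end Pool.Agent.C4K
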